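import Pool.Agent.H1.Dom.Targets

/-! Numbering of the points of the covering game (module E of MP_0061eb_lc, part 1). -/

set_option autoImplicit false

namespace Pool.Agent.H15.Dom

open Pool.Agent.H1.Dom Pool.Agent.H68.OQP Pool.Agent.H68.NPH Finset

/-! ### Generalities -/

theorem radix_inj {m j j' a a' : ℕ} (hj : j < m) (hj' : j' < m) (h : a * m + j = a' * m + j') :
    a = a' ∧ j = j' := by
  have hm : 0 < m := by omega
  have h1 : (a * m + j) / m = a := by
    rw [Nat.add_comm, Nat.add_mul_div_right _ _ hm, Nat.div_eq_of_lt hj, Nat.zero_add]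
  have h2 : (a' * m + j') / m = a' := by
    rw [Nat.add_comm, Nat.add_mul_div_right _ _ hm, Nat.div_eq_of_lt hj', Nat.zero_add]
  have ha : a = a' := by rw [← h1, ← h2, h]
  subst ha
  exact ⟨rfl, by omega⟩

theorem radix_lt {m j a A : ℕ} (hj : j < m) (ha : a < A) : a * m + j < A * m := by
  have : (a + 1) * m ≤ A * m := Nat.mul_le_mul_right m ha
  have h2 : (a + 1) * m = a * m + m := by ring
  omega

/-- number of points -/
def Pn (n m : ℕ) : ℕ := 3 * n + m + 2 * n * m

section pts

variable {n m : ℕ}

/-- the number of a point -/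
def pnum : Pt n m → ℕ
  | .t v => v
  | .f v => n + v
  | .g v => 2 * n + v
  | .q j => 3 * n + j
  | .tok a j => 3 * n + m + (a * m + j)

theorem pnum_lt (p : Pt n m) : pnum p < Pn n m := by
  unfold Pn
  cases p with
  | t v => simp only [pnum]; have := v.2; omega
  | f v => simp only [pnum]; have := v.2; omega
  | g v => simp only [pnum]; have := v.2; omega
  | q j => simp only [pnum]; have := j.2; omega
  | tok a j =>
    simp only [pnum]
    have := radix_lt (m := m) j.2 a.2
    omega

theorem pnum_inj : Function.Injective (pnum : Pt n m → ℕ) := by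
  intro p q h
  cases p with
  | t v =>
    cases q <;> simp only [pnum] at h
    · congr 1; exact Fin.ext h
    all_goals (have := v.2; omega)
  | f v =>
    cases q with
    | t v' => simp only [pnum] at h; have := v'.2; omega
    | f v' => simp only [pnum] at h; congr 1; apply Fin.ext; omega
    | g v' => simp only [pnum] at h; have := v.2; omega
    | q j => simp only [pnum] at h; have := v.2; omega
    | tok a j => simp only [pnum] at h; have := v.2; omega
  | g v =>
    cases q with
    | t v' => simp only [pnum] at h; have := v'.2; omega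
    | f v' => simp only [pnum] at h; have := v'.2; omega
    | g v' => simp only [pnum] at h; congr 1; apply Fin.ext; omega
    | q j => simp only [pnum] at h; have := v.2; omega
    | tok a j => simp only [pnum] at h; have := v.2; omega
  | q j =>
    cases q with
    | t v' => simp only [pnum] at h; have := v'.2; omega
    | f v' => simp only [pnum] at h; have := v'.2; omega
    | g v' => simp only [pnum] at h; have := v'.2; omega
    | q j' => simp only [pnum] at h; congr 1; apply Fin.ext; omega
    | tok a j' => simp only [pnum] at h; have := j.2; omega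
  | tok a j =>
    cases q with
    | t v' => simp only [pnum] at h; have := v'.2; omega
    | f v' => simp only [pnum] at h; have := v'.2; omega
    | g v' => simp only [pnum] at h; have := v'.2; omega
    | q j' => simp only [pnum] at h; have := j'.2; omega
    | tok a' j' =>
      simp only [pnum] at h
      obtain ⟨h1, h2⟩ := radix_inj (m := m) (a := (a : ℕ)) (a' := (a' : ℕ)) j.2 j'.2 (by omega)
      congr 1
      · exact Fin.ext h1
      · exact Fin.ext h2

/-- the points as a sum of types -/
def ptEquiv : Pt n m ≃ (Fin n ⊕ Fin n ⊕ Fin n) ⊕ (Fin m ⊕ Fin (2 * n) × Fin m) where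
  toFun
    | .t v => .inl (.inl v)
    | .f v => .inl (.inr (.inl v))
    | .g v => .inl (.inr (.inr v))
    | .q j => .inr (.inl j)
    | .tok a j => .inr (.inr (a, j))
  invFun
    | .inl (.inl v) => .t v
    | .inl (.inr (.inl v)) => .f v
    | .inl (.inr (.inr v)) => .g v
    | .inr (.inl j) => .q j
    | .inr (.inr (a, j)) => .tok a j
  left_inv p := by cases p <;> rfl
  right_inv x := by
    rcases x with (v | v | v) | j | ⟨a, j⟩ <;> rfl

theorem card_pt : Fintype.card (Pt n m) = Pn n m := by
  rw [Fintype.card_congr (ptEquiv (n := n) (m := m))]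
  simp only [Fintype.card_sum, Fintype.card_fin, Fintype.card_prod]
  unfold Pn
  ring

theorem exists_pt {i : ℕ} (hi : i < Pn n m) : ∃ p : Pt n m, pnum p = i := by
  have hb : Function.Bijective (fun p : Pt n m => (⟨pnum p, pnum_lt p⟩ : Fin (Pn n m))) := by
    rw [Fintype.bijective_iff_injective_and_card]
    refine ⟨fun p q h => pnum_inj (Fin.mk.inj_iff.mp h), ?_⟩
    rw [card_pt, Fintype.card_fin]
  obtain ⟨p, hp⟩ := hb.2 ⟨i, hi⟩
  exact ⟨p, Fin.mk.inj_iff.mp hp⟩

theorem eq_iff_pnum (p q : Pt n m) : p = q ↔ pnum p = pnum q :=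
  ⟨fun h => by rw [h], fun h => pnum_inj h⟩

theorem mem_toks (a : Fin (2 * n)) (y : Pt n m) : y ∈ (Pt.toks a : Finset (Pt n m)) ↔
    3 * n + m + a * m ≤ pnum y ∧ pnum y < 3 * n + m + a * m + m := by
  unfold Pt.toks
  rw [Finset.mem_image]
  constructor
  · rintro ⟨j, -, rfl⟩
    simp only [pnum]
    have := j.2
    omega
  · rintro ⟨h1, h2⟩
    cases y with
    | t v => simp only [pnum] at h1; have := v.2; omega
    | f v => simp only [pnum] at h1; have := v.2; omega
    | g v => simp only [pnum] at h1; have := v.2; omega
    | q j => simp only [pnum] at h1; have := j.2; omega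
    | tok a' j' =>
      simp only [pnum] at h1 h2
      refine ⟨j', Finset.mem_univ _, ?_⟩
      have hj' := j'.2
      have : (a' : ℕ) = a := by
        rcases lt_trichotomy (a' : ℕ) a with h | h | h
        · exfalso
          have : ((a' : ℕ) + 1) * m ≤ a * m := Nat.mul_le_mul_right m h
          have h3 : ((a' : ℕ) + 1) * m = a' * m + m := by ring
          omega
        · exact h
        · exfalso
          have : ((a : ℕ) + 1) * m ≤ a' * m := Nat.mul_le_mul_right m h
          have h3 : ((a : ℕ) + 1) * m = a * m + m := by ring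
          omega
      have : a = a' := Fin.ext this.symm
      rw [this]

theorem card_toks (a : Fin (2 * n)) : (Pt.toks a : Finset (Pt n m)).card = m := by
  unfold Pt.toks
  rw [Finset.card_image_of_injective, Finset.card_univ, Fintype.card_fin]
  intro i j h
  simpa using h

theorem card_tri (v : Fin n) : (Pt.tri v : Finset (Pt n m)).card = 3 := by
  unfold Pt.tri
  rw [Finset.card_insert_of_notMem, Finset.card_insert_of_notMem, Finset.card_singleton]
  · simp
  · simp

theorem card_tri_toks (v : Fin n) (a : Fin (2 * n)) :
    (Pt.tri v ∪ Pt.toks a : Finset (Pt n m)).card = m + 3 := by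
  rw [Finset.card_union_of_disjoint, card_tri, card_toks]
  · ring
  · rw [Finset.disjoint_left]
    intro x hx hx'
    unfold Pt.tri at hx
    unfold Pt.toks at hx'
    rw [Finset.mem_image] at hx'
    obtain ⟨j, -, rfl⟩ := hx'
    simp at hx

theorem mem_tri (v : Fin n) (y : Pt n m) : y ∈ (Pt.tri v : Finset (Pt n m)) ↔
    pnum y = v ∨ pnum y = n + v ∨ pnum y = 2 * n + v := by
  unfold Pt.tri
  simp only [Finset.mem_insert, Finset.mem_singleton, eq_iff_pnum, pnum]

end pts

/-! ### Loops and digits -/

/-- `r` nested loops with the same bound -/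
def loops (e : Ex) : ℕ → Rg → Rg
  | 0, g => g
  | r + 1, g => .loop e (loops e r g)

theorem mem_loops {l : List ℕ} {e : Ex} {s : ℕ} (he : ∀ env, e.val l env = s) {g : Rg}
    {x : ℕ × ℕ} : ∀ (r : ℕ) (env : List ℕ), x ∈ (loops e r g).out l env ↔
      ∃ ds : List ℕ, ds.length = r ∧ (∀ d ∈ ds, d < s) ∧ x ∈ g.out l (ds ++ env)
  | 0, env => by
    constructor
    · intro h
      exact ⟨[], rfl, by simp, h⟩
    · rintro ⟨ds, h1, -, h3⟩
      rw [List.length_eq_zero_iff] at h1
      subst h1
      exact h3
  | r + 1, env => by
    have : x ∈ (loops e (r + 1) g).out l env ↔ ∃ i < s, x ∈ (loops e r g).out l (i :: env) := by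
      rw [loops, Rg.mem_loop, he]
    rw [this]
    constructor
    · rintro ⟨i, hi, h⟩
      rw [mem_loops he r] at h
      obtain ⟨ds, h1, h2, h3⟩ := h
      refine ⟨ds ++ [i], by simp [h1], ?_, by simpa using h3⟩
      intro d hd
      rw [List.mem_append, List.mem_singleton] at hd
      rcases hd with hd | rfl
      · exact h2 d hd
      · exact hi
    · rintro ⟨ds, h1, h2, h3⟩
      rcases List.eq_nil_or_concat ds with rfl | ⟨ds', i, rfl⟩
      · simp at h1
      · refine ⟨i, h2 i (by simp), ?_⟩
        rw [mem_loops he r]
        refine ⟨ds', by simpa using h1, fun d hd => h2 d (by simp [hd]), by simpa using h3⟩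

/-- the Horner scheme -/
def hor (s : Ex) : List Ex → Ex
  | [] => .con 0
  | x :: xs => .add x (.mul s (hor s xs))

theorem hor_val {l env : List ℕ} (s : Ex) : ∀ xs : List Ex, (hor s xs).val l env =
    Nat.ofDigits (s.val l env) (xs.map (fun x => x.val l env))
  | [] => rfl
  | x :: xs => by
    simp only [hor, Ex.val, List.map_cons, Nat.ofDigits_cons, hor_val s xs]

end Pool.Agent.H15.Dom
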