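import Pool.Agent.H15.Dom.E1

/-! The answers of the covering game by numbers (module E of MP_0061eb_lc, part 2). -/

set_option autoImplicit false

namespace Pool.Agent.H15.Dom

open Pool.Agent.H1.Dom Pool.Agent.H68.OQP Pool.Agent.H68.NPH Finset

/-- number of variables -/
def eN : Ex := .inp (.con 0)
/-- number of clauses -/
def eM : Ex := .inp (.con 1)
/-- the constant multiple -/
def cm (c : ℕ) (e : Ex) : Ex := .mul (.con c) e

/-- entry of a list -/
def gt (l : List ℕ) (i : ℕ) : ℕ := l.getD i 0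

@[simp] theorem eN_val {l env : List ℕ} : eN.val l env = qn l := rfl
@[simp] theorem eM_val {l env : List ℕ} : eM.val l env = qm l := rfl
@[simp] theorem cm_val {l env : List ℕ} {c : ℕ} {e : Ex} : (cm c e).val l env = c * e.val l env :=
  rfl
@[simp] theorem add_val {l env : List ℕ} {a b : Ex} : (Ex.add a b).val l env =
    a.val l env + b.val l env := rfl
@[simp] theorem mul_val {l env : List ℕ} {a b : Ex} : (Ex.mul a b).val l env =
    a.val l env * b.val l env := rfl
@[simp] theorem con_val {l env : List ℕ} {c : ℕ} : (Ex.con c).val l env = c := rfl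
@[simp] theorem var_val {l env : List ℕ} {c : ℕ} : (Ex.var c).val l env = gt env c := rfl
@[simp] theorem inp_val {l env : List ℕ} {e : Ex} : (Ex.inp e).val l env =
    gt l (e.val l env) := rfl

/-- a kind of answers: validity, the point, single points, the literal whose tokens belong to the
answer, the number of points -/
structure Kd where
  va : Cd
  pt : Ex
  ys : List Ex
  tk : Option Ex
  sz : Ex

/-- first parameter -/
def x1 : Ex := .var 3
/-- second parameter -/
def x2 : Ex := .var 4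
/-- third parameter -/
def x3 : Ex := .var 5

/-- number of the token -/
def etok : Ex := .add (.add (cm 3 eN) eM) (.add (.mul x1 eM) x2)
/-- number of `q j` -/
def eq' : Ex := .add (cm 3 eN) x2
/-- validity for a variable -/
def vN : Cd := .lt x1 eN
/-- the variable is existential -/
def vE : Cd := .le (.inp (.add (.con 2) x1)) (.con 0)
/-- validity for tokens -/
def vT : Cd := (Cd.lt x1 (cm 2 eN)).and (Cd.lt x2 eM)
/-- the literal `x1` occurs in the clause `x2` -/
def vC : Cd := Cd.any (List.range 5) (fun i =>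
  Cd.eq (.inp (.add (.add (.con 2) eN) (.add (cm 5 x2) (.con i)))) x1)
/-- `x3` is the variable of `x1` -/
def vW : Cd := (Cd.eq x1 (cm 2 x3)).or (Cd.eq x1 (.add (cm 2 x3) (.con 1)))

/-- the three points of a variable -/
def tr : List Ex := [x1, .add eN x1, .add (cm 2 eN) x1]

/-- the kinds -/
def kd : ℕ → Kd
  | 0 => ⟨vN, x1, tr, some (cm 2 x1), .add eM (.con 3)⟩
  | 1 => ⟨vN.and vE, x1, tr, some (.add (cm 2 x1) (.con 1)), .add eM (.con 3)⟩
  | 2 => ⟨vN, x1, [x1], none, .con 1⟩
  | 3 => ⟨vN.and (.lt x2 x1), x1, [x1, .add (cm 2 eN) x1, .add (cm 2 eN) x2], none, .con 3⟩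
  | 4 => ⟨vN, .add eN x1, tr, some (.add (cm 2 x1) (.con 1)), .add eM (.con 3)⟩
  | 5 => ⟨vN.and vE, .add eN x1, tr, some (cm 2 x1), .add eM (.con 3)⟩
  | 6 => ⟨vN, .add eN x1, [.add eN x1], none, .con 1⟩
  | 7 => ⟨vN.and (.lt x2 x1), .add eN x1, [.add eN x1, .add (cm 2 eN) x1, .add (cm 2 eN) x2],
      none, .con 3⟩
  | 8 => ⟨vN, .add (cm 2 eN) x1, tr, none, .con 3⟩
  | 9 => ⟨vT.and vC, eq', [eq', etok], none, .con 2⟩
  | 10 => ⟨vT.and (vC.and vW), eq', [eq', etok, .add (cm 2 eN) x3], none, .con 3⟩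
  | 11 => ⟨vT, etok, [etok], none, .con 1⟩
  | 12 => ⟨vT, etok, [etok, eq'], none, .con 2⟩
  | 13 => ⟨vT.and vW, etok, [etok, .add (cm 2 eN) x3], none, .con 2⟩
  | _ => ⟨vT.and vW, etok, [etok, eq', .add (cm 2 eN) x3], none, .con 3⟩

section

variable {l : List ℕ}

/-- the description of an answer -/
def Desc (l env : List ℕ) (k : Kd) (p : Pt (qn l) (qm l)) (X : Finset (Pt (qn l) (qm l))) :
    Prop :=
  k.va.tv l env ∧ pnum p = k.pt.val l env ∧ X.card = k.sz.val l env ∧
    ∀ y, y ∈ X ↔ (∃ e ∈ k.ys, pnum y = e.val l env) ∨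
      ∃ q ∈ k.tk, 3 * qn l + qm l + q.val l env * qm l ≤ pnum y ∧
        pnum y < 3 * qn l + qm l + q.val l env * qm l + qm l

theorem qU_false {v : ℕ} : qU l v = false ↔ gt l (2 + v) ≤ 0 := by
  unfold qU gt
  rw [decide_eq_false_iff_not]
  omega

theorem tv_vC {env : List ℕ} : vC.tv l env ↔ ∃ i < 5, qc l (gt env 4) i = gt env 3 := by
  simp only [vC, tv_any, List.mem_range, tv_eq, inp_val, add_val, con_val, eN_val, cm_val, x1, x2,
    var_val, qc, ← add_assoc]
  rfl

/-- all simplifications for the kinds -/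
theorem card_two {α : Type} [DecidableEq α] {a b : α} (h : a ≠ b) :
    ({a, b} : Finset α).card = 2 := by
  rw [Finset.card_insert_of_notMem, Finset.card_singleton]
  simpa using h

theorem card_three {α : Type} [DecidableEq α] {a b c : α} (h : a ≠ b) (h2 : a ≠ c) (h3 : b ≠ c) :
    ({a, b, c} : Finset α).card = 3 := by
  rw [Finset.card_insert_of_notMem, Finset.card_insert_of_notMem, Finset.card_singleton]
  · simpa using h3
  · simp [h, h2]

theorem D0 (v : Fin (qn l)) (env : List ℕ) (h : gt env 3 = v) :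
    Desc l env (kd 0) (.t v) (Pt.tri v ∪ Pt.toks (Pt.ng v)) := by
  refine ⟨?_, ?_, ?_, ?_⟩
  · simp [kd, vN, x1, h]
  · simp [kd, x1, h, pnum]
  · rw [card_tri_toks]; simp [kd]
  · intro y
    rw [Finset.mem_union, mem_tri, mem_toks]
    simp only [kd, tr, x1, List.mem_cons, List.not_mem_nil, or_false, exists_eq_or_imp,
      exists_eq_left, add_val, eN_val, cm_val, var_val, h, Option.mem_def, Option.some.injEq,
      Pt.ng, exists_eq_left']

theorem D1 (v : Fin (qn l)) (hU : qU l v = false) (env : List ℕ) (h : gt env 3 = v) :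
    Desc l env (kd 1) (.t v) (Pt.tri v ∪ Pt.toks (Pt.ps v)) := by
  refine ⟨?_, ?_, ?_, ?_⟩
  · rw [qU_false] at hU
    simpa [kd, vN, vE, x1, h] using hU
  · simp [kd, x1, h, pnum]
  · rw [card_tri_toks]; simp [kd]
  · intro y
    rw [Finset.mem_union, mem_tri, mem_toks]
    simp only [kd, tr, x1, List.mem_cons, List.not_mem_nil, or_false, exists_eq_or_imp,
      exists_eq_left, add_val, eN_val, cm_val, var_val, h, Option.mem_def, Option.some.injEq,
      Pt.ps, exists_eq_left', con_val]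

theorem D2 (v : Fin (qn l)) (env : List ℕ) (h : gt env 3 = v) :
    Desc l env (kd 2) (.t v) {.t v} := by
  refine ⟨?_, ?_, ?_, ?_⟩
  · simp [kd, vN, x1, h]
  · simp [kd, x1, h, pnum]
  · simp [kd]
  · intro y
    rw [Finset.mem_singleton, eq_iff_pnum]
    simp only [kd, x1, List.mem_cons, List.not_mem_nil, or_false,
      exists_eq_left, var_val, h, Option.mem_def, reduceCtorEq, false_and, exists_false, pnum]

theorem D3 (v k : Fin (qn l)) (hk : k < v) (env : List ℕ) (h : gt env 3 = v)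
    (h2 : gt env 4 = k) :
    Desc l env (kd 3) (.t v) {.t v, .g v, .g k} := by
  refine ⟨?_, ?_, ?_, ?_⟩
  · simpa [kd, vN, x1, x2, h, h2] using hk
  · simp [kd, x1, h, pnum]
  · rw [card_three] <;> simp [kd, hk.ne']
  · intro y
    simp only [Finset.mem_insert, Finset.mem_singleton, eq_iff_pnum]
    simp only [kd, x1, x2, List.mem_cons, List.not_mem_nil, or_false, exists_eq_or_imp,
      exists_eq_left, var_val, h, h2, Option.mem_def, reduceCtorEq, false_and, exists_false, pnum,
      add_val, cm_val, eN_val]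

theorem D4 (v : Fin (qn l)) (env : List ℕ) (h : gt env 3 = v) :
    Desc l env (kd 4) (.f v) (Pt.tri v ∪ Pt.toks (Pt.ps v)) := by
  refine ⟨?_, ?_, ?_, ?_⟩
  · simp [kd, vN, x1, h]
  · simp [kd, x1, h, pnum]
  · rw [card_tri_toks]; simp [kd]
  · intro y
    rw [Finset.mem_union, mem_tri, mem_toks]
    simp only [kd, tr, x1, List.mem_cons, List.not_mem_nil, or_false, exists_eq_or_imp,
      exists_eq_left, add_val, eN_val, cm_val, var_val, h, Option.mem_def, Option.some.injEq,
      Pt.ps, exists_eq_left', con_val]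

theorem D5 (v : Fin (qn l)) (hU : qU l v = false) (env : List ℕ) (h : gt env 3 = v) :
    Desc l env (kd 5) (.f v) (Pt.tri v ∪ Pt.toks (Pt.ng v)) := by
  refine ⟨?_, ?_, ?_, ?_⟩
  · rw [qU_false] at hU
    simpa [kd, vN, vE, x1, h] using hU
  · simp [kd, x1, h, pnum]
  · rw [card_tri_toks]; simp [kd]
  · intro y
    rw [Finset.mem_union, mem_tri, mem_toks]
    simp only [kd, tr, x1, List.mem_cons, List.not_mem_nil, or_false, exists_eq_or_imp,
      exists_eq_left, add_val, eN_val, cm_val, var_val, h, Option.mem_def, Option.some.injEq,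
      Pt.ng, exists_eq_left']

theorem D6 (v : Fin (qn l)) (env : List ℕ) (h : gt env 3 = v) :
    Desc l env (kd 6) (.f v) {.f v} := by
  refine ⟨?_, ?_, ?_, ?_⟩
  · simp [kd, vN, x1, h]
  · simp [kd, x1, h, pnum]
  · simp [kd]
  · intro y
    rw [Finset.mem_singleton, eq_iff_pnum]
    simp only [kd, x1, List.mem_cons, List.not_mem_nil, or_false, add_val, eN_val,
      exists_eq_left, var_val, h, Option.mem_def, reduceCtorEq, false_and, exists_false, pnum]

theorem D7 (v k : Fin (qn l)) (hk : k < v) (env : List ℕ) (h : gt env 3 = v)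
    (h2 : gt env 4 = k) :
    Desc l env (kd 7) (.f v) {.f v, .g v, .g k} := by
  refine ⟨?_, ?_, ?_, ?_⟩
  · simpa [kd, vN, x1, x2, h, h2] using hk
  · simp [kd, x1, h, pnum]
  · rw [card_three] <;> simp [kd, hk.ne']
  · intro y
    simp only [Finset.mem_insert, Finset.mem_singleton, eq_iff_pnum]
    simp only [kd, x1, x2, List.mem_cons, List.not_mem_nil, or_false, exists_eq_or_imp,
      exists_eq_left, var_val, h, h2, Option.mem_def, reduceCtorEq, false_and, exists_false, pnum,
      add_val, cm_val, eN_val]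

theorem D8 (v : Fin (qn l)) (env : List ℕ) (h : gt env 3 = v) :
    Desc l env (kd 8) (.g v) (Pt.tri v) := by
  refine ⟨?_, ?_, ?_, ?_⟩
  · simp [kd, vN, x1, h]
  · simp [kd, x1, h, pnum]
  · rw [card_tri]; simp [kd]
  · intro y
    rw [mem_tri]
    simp only [kd, tr, x1, List.mem_cons, List.not_mem_nil, or_false, exists_eq_or_imp,
      exists_eq_left, var_val, h, Option.mem_def, reduceCtorEq, false_and, exists_false,
      add_val, cm_val, eN_val]

theorem vr_val (a : Fin (2 * qn l)) {w : ℕ} (hw : (a : ℕ) = 2 * w ∨ (a : ℕ) = 2 * w + 1) :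
    w = (Pt.vr a : ℕ) := by
  simp only [Pt.vr]
  omega

theorem D9 (a : Fin (2 * qn l)) (j : Fin (qm l)) (hc : ∃ i < 5, qc l j i = a)
    (env : List ℕ) (h : gt env 3 = a) (h2 : gt env 4 = j) :
    Desc l env (kd 9) (.q j) {.q j, .tok a j} := by
  refine ⟨?_, ?_, ?_, ?_⟩
  · simp only [kd, tv_and, tv_vC, h, h2]
    refine ⟨?_, hc⟩
    simp [vT, x1, x2, h, h2]
  · simp [kd, eq', x2, h2, pnum]
  · rw [card_two] <;> simp [kd]
  · intro y
    simp only [Finset.mem_insert, Finset.mem_singleton, eq_iff_pnum]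
    simp only [kd, eq', etok, x1, x2, List.mem_cons, List.not_mem_nil, or_false, exists_eq_or_imp,
      exists_eq_left, var_val, h, h2, Option.mem_def, reduceCtorEq, false_and, exists_false, pnum,
      add_val, cm_val, eN_val, eM_val, mul_val]

theorem D10 (a : Fin (2 * qn l)) (j : Fin (qm l)) (hc : ∃ i < 5, qc l j i = a)
    (env : List ℕ) (h : gt env 3 = a) (h2 : gt env 4 = j)
    (h3 : (a : ℕ) = 2 * gt env 5 ∨ (a : ℕ) = 2 * gt env 5 + 1) :
    Desc l env (kd 10) (.q j) {.q j, .tok a j, .g (Pt.vr a)} := by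
  have h4 := vr_val a h3
  refine ⟨?_, ?_, ?_, ?_⟩
  · simp only [kd, tv_and, tv_vC, h, h2]
    refine ⟨?_, hc, ?_⟩
    · simp [vT, x1, x2, h, h2]
    · simpa [vW, x1, x3, h] using h3
  · simp [kd, eq', x2, h2, pnum]
  · rw [card_three] <;> simp [kd]
  · intro y
    simp only [Finset.mem_insert, Finset.mem_singleton, eq_iff_pnum]
    simp only [kd, eq', etok, x1, x2, x3, List.mem_cons, List.not_mem_nil, or_false,
      exists_eq_or_imp,
      exists_eq_left, var_val, h, h2, h4, Option.mem_def, reduceCtorEq, false_and, exists_false,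
      pnum, add_val, cm_val, eN_val, eM_val, mul_val]

theorem D11 (a : Fin (2 * qn l)) (j : Fin (qm l))
    (env : List ℕ) (h : gt env 3 = a) (h2 : gt env 4 = j) :
    Desc l env (kd 11) (.tok a j) {.tok a j} := by
  refine ⟨?_, ?_, ?_, ?_⟩
  · simp [kd, vT, x1, x2, h, h2]
  · simp [kd, etok, x1, x2, h, h2, pnum]
  · simp [kd]
  · intro y
    simp only [Finset.mem_singleton, eq_iff_pnum]
    simp only [kd, etok, x1, x2, List.mem_cons, List.not_mem_nil, or_false,
      exists_eq_left, var_val, h, h2, Option.mem_def, reduceCtorEq, false_and, exists_false, pnum,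
      add_val, cm_val, eN_val, eM_val, mul_val]

theorem D12 (a : Fin (2 * qn l)) (j : Fin (qm l))
    (env : List ℕ) (h : gt env 3 = a) (h2 : gt env 4 = j) :
    Desc l env (kd 12) (.tok a j) {.tok a j, .q j} := by
  refine ⟨?_, ?_, ?_, ?_⟩
  · simp [kd, vT, x1, x2, h, h2]
  · simp [kd, etok, x1, x2, h, h2, pnum]
  · rw [card_two] <;> simp [kd]
  · intro y
    simp only [Finset.mem_insert, Finset.mem_singleton, eq_iff_pnum]
    simp only [kd, eq', etok, x1, x2, List.mem_cons, List.not_mem_nil, or_false, exists_eq_or_imp,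
      exists_eq_left, var_val, h, h2, Option.mem_def, reduceCtorEq, false_and, exists_false, pnum,
      add_val, cm_val, eN_val, eM_val, mul_val]

theorem D13 (a : Fin (2 * qn l)) (j : Fin (qm l))
    (env : List ℕ) (h : gt env 3 = a) (h2 : gt env 4 = j)
    (h3 : (a : ℕ) = 2 * gt env 5 ∨ (a : ℕ) = 2 * gt env 5 + 1) :
    Desc l env (kd 13) (.tok a j) {.tok a j, .g (Pt.vr a)} := by
  have h4 := vr_val a h3
  refine ⟨?_, ?_, ?_, ?_⟩
  · simp only [kd, tv_and]
    refine ⟨?_, ?_⟩
    · simp [vT, x1, x2, h, h2]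
    · simpa [vW, x1, x3, h] using h3
  · simp [kd, etok, x1, x2, h, h2, pnum]
  · rw [card_two] <;> simp [kd]
  · intro y
    simp only [Finset.mem_insert, Finset.mem_singleton, eq_iff_pnum]
    simp only [kd, etok, x1, x2, x3, List.mem_cons, List.not_mem_nil, or_false, exists_eq_or_imp,
      exists_eq_left, var_val, h, h2, h4, Option.mem_def, reduceCtorEq, false_and, exists_false,
      pnum, add_val, cm_val, eN_val, eM_val, mul_val]

theorem D14 (a : Fin (2 * qn l)) (j : Fin (qm l))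
    (env : List ℕ) (h : gt env 3 = a) (h2 : gt env 4 = j)
    (h3 : (a : ℕ) = 2 * gt env 5 ∨ (a : ℕ) = 2 * gt env 5 + 1) :
    Desc l env (kd 14) (.tok a j) {.tok a j, .q j, .g (Pt.vr a)} := by
  have h4 := vr_val a h3
  refine ⟨?_, ?_, ?_, ?_⟩
  · simp only [kd, tv_and]
    refine ⟨?_, ?_⟩
    · simp [vT, x1, x2, h, h2]
    · simpa [vW, x1, x3, h] using h3
  · simp [kd, etok, x1, x2, h, h2, pnum]
  · rw [card_three] <;> simp [kd]
  · intro y
    simp only [Finset.mem_insert, Finset.mem_singleton, eq_iff_pnum]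
    simp only [kd, eq', etok, x1, x2, x3, List.mem_cons, List.not_mem_nil, or_false,
      exists_eq_or_imp,
      exists_eq_left, var_val, h, h2, h4, Option.mem_def, reduceCtorEq, false_and, exists_false,
      pnum, add_val, cm_val, eN_val, eM_val, mul_val]

/-- completeness of the kinds -/
theorem kd_complete {p : Pt (qn l) (qm l)} {X : Finset (Pt (qn l) (qm l))}
    (h : Pt.Ans (qU l) (qc l) p X) : ∃ κ < 15, ∃ y1 y2 y3 : ℕ,
      y1 < 2 * qn l + 1 ∧ y2 < qn l + qm l + 1 ∧ y3 < qn l + 1 ∧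
      ∀ env : List ℕ, gt env 3 = y1 → gt env 4 = y2 → gt env 5 = y3 →
        Desc l env (kd κ) p X := by
  have hw : ∀ a : Fin (2 * qn l), ∃ w < qn l, (a : ℕ) = 2 * w ∨ (a : ℕ) = 2 * w + 1 := by
    intro a
    have := a.2
    exact ⟨a / 2, by omega, by omega⟩
  cases h with
  | tT v => exact ⟨0, by norm_num, v, 0, 0, by omega, by omega, by omega,
      fun env h1 _ _ => D0 v env h1⟩
  | tF v hU => exact ⟨1, by norm_num, v, 0, 0, by omega, by omega, by omega,
      fun env h1 _ _ => D1 v hU env h1⟩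
  | t1 v => exact ⟨2, by norm_num, v, 0, 0, by omega, by omega, by omega,
      fun env h1 _ _ => D2 v env h1⟩
  | t3 v k hk => exact ⟨3, by norm_num, v, k, 0, by omega, by omega, by omega,
      fun env h1 h2 _ => D3 v k hk env h1 h2⟩
  | fF v => exact ⟨4, by norm_num, v, 0, 0, by omega, by omega, by omega,
      fun env h1 _ _ => D4 v env h1⟩
  | fT v hU => exact ⟨5, by norm_num, v, 0, 0, by omega, by omega, by omega,
      fun env h1 _ _ => D5 v hU env h1⟩
  | f1 v => exact ⟨6, by norm_num, v, 0, 0, by omega, by omega, by omega,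
      fun env h1 _ _ => D6 v env h1⟩
  | f3 v k hk => exact ⟨7, by norm_num, v, k, 0, by omega, by omega, by omega,
      fun env h1 h2 _ => D7 v k hk env h1 h2⟩
  | g v => exact ⟨8, by norm_num, v, 0, 0, by omega, by omega, by omega,
      fun env h1 _ _ => D8 v env h1⟩
  | q2 j a i hi hc => exact ⟨9, by norm_num, a, j, 0, by omega, by omega, by omega,
      fun env h1 h2 _ => D9 a j ⟨i, hi, hc⟩ env h1 h2⟩
  | q3 j a i hi hc =>
    obtain ⟨w, h0, hw⟩ := hw a
    exact ⟨10, by norm_num, a, j, w, by omega, by omega, by omega,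
      fun env h1 h2 h3 => D10 a j ⟨i, hi, hc⟩ env h1 h2 (by rw [h3]; exact hw)⟩
  | k1 a j => exact ⟨11, by norm_num, a, j, 0, by omega, by omega, by omega,
      fun env h1 h2 _ => D11 a j env h1 h2⟩
  | k2 a j => exact ⟨12, by norm_num, a, j, 0, by omega, by omega, by omega,
      fun env h1 h2 _ => D12 a j env h1 h2⟩
  | k3 a j =>
    obtain ⟨w, h0, hw⟩ := hw a
    exact ⟨13, by norm_num, a, j, w, by omega, by omega, by omega,
      fun env h1 h2 h3 => D13 a j env h1 h2 (by rw [h3]; exact hw)⟩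
  | k4 a j =>
    obtain ⟨w, h0, hw⟩ := hw a
    exact ⟨14, by norm_num, a, j, w, by omega, by omega, by omega,
      fun env h1 h2 h3 => D14 a j env h1 h2 (by rw [h3]; exact hw)⟩

/-- soundness of the kinds -/
theorem kd_sound {κ : ℕ} (hκ : κ < 15) (env : List ℕ) (hv : (kd κ).va.tv l env) :
    ∃ p X, Pt.Ans (qU l) (qc l) p X ∧ p ∈ X ∧ ∀ env' : List ℕ, gt env' 3 = gt env 3 →
      gt env' 4 = gt env 4 → gt env' 5 = gt env 5 → Desc l env' (kd κ) p X := by
  have hN : vN.tv l env → ∃ v : Fin (qn l), gt env 3 = v := by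
    intro h
    have h' : gt env 3 < qn l := by simpa [vN, x1] using h
    exact ⟨⟨_, h'⟩, rfl⟩
  have hT : vT.tv l env → ∃ (a : Fin (2 * qn l)) (j : Fin (qm l)), gt env 3 = a ∧
      gt env 4 = j := by
    intro h
    have h' : gt env 3 < 2 * qn l ∧ gt env 4 < qm l := by simpa [vT, x1, x2] using h
    exact ⟨⟨_, h'.1⟩, ⟨_, h'.2⟩, rfl, rfl⟩
  have hW : vW.tv l env → (gt env 3 = 2 * gt env 5 ∨
      gt env 3 = 2 * gt env 5 + 1) := by
    intro h
    simpa [vW, x1, x3] using h
  have hE : vE.tv l env → gt l (2 + gt env 3) ≤ 0 := by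
    intro h
    simpa [vE, x1] using h
  have hK : (Cd.lt x2 x1).tv l env → gt env 4 < gt env 3 := by
    intro h
    simpa [x1, x2] using h
  interval_cases κ
  · obtain ⟨v, h⟩ := hN hv
    exact ⟨_, _, .tT v, by simp [Pt.tri], fun env' e1 _ _ => D0 v env' (e1.trans h)⟩
  · have hv' : vN.tv l env ∧ vE.tv l env := by rw [← tv_and]; exact hv
    obtain ⟨v, h⟩ := hN hv'.1
    have h2 := hE hv'.2
    rw [h, ← qU_false] at h2
    exact ⟨_, _, .tF v h2, by simp [Pt.tri], fun env' e1 _ _ => D1 v h2 env' (e1.trans h)⟩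
  · obtain ⟨v, h⟩ := hN hv
    exact ⟨_, _, .t1 v, by simp, fun env' e1 _ _ => D2 v env' (e1.trans h)⟩
  · have hv' : vN.tv l env ∧ (Cd.lt x2 x1).tv l env := by rw [← tv_and]; exact hv
    obtain ⟨v, h⟩ := hN hv'.1
    have h2 := hK hv'.2
    rw [h] at h2
    have hk : (⟨gt env 4, by omega⟩ : Fin (qn l)) < v := h2
    exact ⟨_, _, .t3 v _ hk, by simp, fun env' e1 e2 _ => D3 v _ hk env' (e1.trans h) e2⟩
  · obtain ⟨v, h⟩ := hN hv
    exact ⟨_, _, .fF v, by simp [Pt.tri], fun env' e1 _ _ => D4 v env' (e1.trans h)⟩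
  · have hv' : vN.tv l env ∧ vE.tv l env := by rw [← tv_and]; exact hv
    obtain ⟨v, h⟩ := hN hv'.1
    have h2 := hE hv'.2
    rw [h, ← qU_false] at h2
    exact ⟨_, _, .fT v h2, by simp [Pt.tri], fun env' e1 _ _ => D5 v h2 env' (e1.trans h)⟩
  · obtain ⟨v, h⟩ := hN hv
    exact ⟨_, _, .f1 v, by simp, fun env' e1 _ _ => D6 v env' (e1.trans h)⟩
  · have hv' : vN.tv l env ∧ (Cd.lt x2 x1).tv l env := by rw [← tv_and]; exact hv
    obtain ⟨v, h⟩ := hN hv'.1
    have h2 := hK hv'.2
    rw [h] at h2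
    have hk : (⟨gt env 4, by omega⟩ : Fin (qn l)) < v := h2
    exact ⟨_, _, .f3 v _ hk, by simp, fun env' e1 e2 _ => D7 v _ hk env' (e1.trans h) e2⟩
  · obtain ⟨v, h⟩ := hN hv
    exact ⟨_, _, .g v, by simp [Pt.tri], fun env' e1 _ _ => D8 v env' (e1.trans h)⟩
  · have hv' : vT.tv l env ∧ vC.tv l env := by rw [← tv_and]; exact hv
    obtain ⟨a, j, h, h2⟩ := hT hv'.1
    have hc := tv_vC.1 hv'.2
    rw [h, h2] at hc
    obtain ⟨i, hi, hc'⟩ := hc
    exact ⟨_, _, .q2 j a i hi hc', by simp, fun env' e1 e2 _ => D9 a j ⟨i, hi, hc'⟩ env'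
      (e1.trans h) (e2.trans h2)⟩
  · have hv' : vT.tv l env ∧ vC.tv l env ∧ vW.tv l env := by
      rw [← tv_and, ← tv_and]; exact hv
    obtain ⟨a, j, h, h2⟩ := hT hv'.1
    have hc := tv_vC.1 hv'.2.1
    have hw := hW hv'.2.2
    rw [h, h2] at hc
    rw [h] at hw
    obtain ⟨i, hi, hc'⟩ := hc
    exact ⟨_, _, .q3 j a i hi hc', by simp, fun env' e1 e2 e3 => D10 a j ⟨i, hi, hc'⟩ env'
      (e1.trans h) (e2.trans h2) (by rw [e3]; exact hw)⟩
  · obtain ⟨a, j, h, h2⟩ := hT hv
    exact ⟨_, _, .k1 a j, by simp, fun env' e1 e2 _ => D11 a j env' (e1.trans h) (e2.trans h2)⟩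
  · obtain ⟨a, j, h, h2⟩ := hT hv
    exact ⟨_, _, .k2 a j, by simp, fun env' e1 e2 _ => D12 a j env' (e1.trans h) (e2.trans h2)⟩
  · have hv' : vT.tv l env ∧ vW.tv l env := by rw [← tv_and]; exact hv
    obtain ⟨a, j, h, h2⟩ := hT hv'.1
    have hw := hW hv'.2
    rw [h] at hw
    exact ⟨_, _, .k3 a j, by simp, fun env' e1 e2 e3 => D13 a j env' (e1.trans h)
      (e2.trans h2) (by rw [e3]; exact hw)⟩
  · have hv' : vT.tv l env ∧ vW.tv l env := by rw [← tv_and]; exact hv
    obtain ⟨a, j, h, h2⟩ := hT hv'.1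
    have hw := hW hv'.2
    rw [h] at hw
    exact ⟨_, _, .k4 a j, by simp, fun env' e1 e2 e3 => D14 a j env' (e1.trans h)
      (e2.trans h2) (by rw [e3]; exact hw)⟩

end

end Pool.Agent.H15.Dom
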