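import Pool.Agent.H15.Dom.E2

/-! The neighbourhoods of the clique vertices by numbers (module E of MP_0061eb_lc, part 3). -/

set_option autoImplicit false

namespace Pool.Agent.H15.Dom

open Pool.Agent.H1.Dom Pool.Agent.H68.OQP Pool.Agent.H68.NPH Finset

/-- number of points -/
def eP : Ex := .add (.add (cm 3 eN) eM) (.mul (cm 2 eN) eM)
/-- the length of a cell -/
def eL : Ex := .add eM (.con 3)

@[simp] theorem eP_val {l env : List ℕ} : eP.val l env = Pn (qn l) (qm l) := rfl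
@[simp] theorem eL_val {l env : List ℕ} : eL.val l env = qm l + 3 := rfl

/-- the conditions on the cells -/
def common : Cd :=
  (Cd.lt (.var 7) eP).and ((Cd.le (.add (.var 8) (.var 9)) eL).and ((Cd.lt (.var 10) eP).and
    ((Cd.le (.var 11) eL).and (Cd.lt (.var 12) (.con 3)))))

/-- the filler `(y, e)` belongs to the answer -/
def segc (y e : Ex) : Cd :=
  ((Cd.eq y (.var 7)).and ((Cd.le (.add (.var 8) (.con 1)) e).and
    (Cd.lt e (.add (.add (.var 8) (.con 1)) (.var 9))))).or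
  ((Cd.eq y (.var 10)).and ((Cd.le (.con 1) e).and (Cd.lt e (.add (.con 1) (.var 11)))))

/-- the point number `var 2` belongs to the old answer -/
def xp (k : Kd) : Cd :=
  (Cd.any k.ys (fun e => Cd.eq (.var 2) e)).or
    (match k.tk with
      | none => .ff
      | some q => (Cd.le (.add (.add (cm 3 eN) eM) (.mul q eM)) (.var 2)).and
        (Cd.lt (.var 2) (.add (.add (.add (cm 3 eN) eM) (.mul q eM)) eM)))

/-- a filler is answered -/
def vz : Cd :=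
  (Cd.lt (.var 4) eP).and ((Cd.le (.con 1) (.var 6)).and ((Cd.lt (.var 6) (.add eL (.con 1))).and
    (segc (.var 4) (.var 6))))

/-- validity -/
def VV (κ : ℕ) : Cd :=
  if κ < 15 then
    (kd κ).va.and (common.and (Cd.eq (.add (.add (kd κ).sz (.var 9)) (.var 11))
      (.add eL (.con 1))))
  else if κ = 15 then
    (Cd.lt (.var 3) eP).and (vz.and (common.and (Cd.eq (.add (.var 9) (.var 11)) eL)))
  else vz.and (common.and (Cd.eq (.add (.var 9) (.var 11)) (.add eL (.con 1))))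

/-- membership in the old answer -/
def XX (κ : ℕ) : Cd :=
  if κ < 15 then xp (kd κ) else if κ = 15 then Cd.eq (.var 2) (.var 3) else .ff

/-- the number of the cell of the point that is answered -/
def zp (κ : ℕ) : Ex := if κ < 15 then (kd κ).pt else .var 4

/-- the position of the point that is answered -/
def zz (κ : ℕ) : Ex := if κ < 15 then .con 0 else .var 6

/-- the whole condition -/
def CC (κ : ℕ) : Cd :=
  (VV κ).and ((((Cd.eq (.var 1) (.con 0)).and (XX κ)).or (segc (.var 2) (.var 1))).and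
    (.not ((Cd.eq (.var 2) (zp κ)).and ((Cd.eq (.var 1) (zz κ)).and (Cd.eq (.var 0) (.var 12))))))

section

variable {l : List ℕ}

/-- the digits as a list -/
def dl (a1 a2 a3 a4 a5 a6 a7 a8 a9 a10 : ℕ) : List ℕ := [a1, a2, a3, a4, a5, a6, a7, a8, a9, a10]

section

variable (c' e y a1 a2 a3 a4 a5 a6 a7 a8 a9 a10 : ℕ)

@[simp] theorem gt0 : gt (c' :: e :: y :: dl a1 a2 a3 a4 a5 a6 a7 a8 a9 a10) 0 = c' := rfl
@[simp] theorem gt1 : gt (c' :: e :: y :: dl a1 a2 a3 a4 a5 a6 a7 a8 a9 a10) 1 = e := rfl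
@[simp] theorem gt2 : gt (c' :: e :: y :: dl a1 a2 a3 a4 a5 a6 a7 a8 a9 a10) 2 = y := rfl
@[simp] theorem gt3 : gt (c' :: e :: y :: dl a1 a2 a3 a4 a5 a6 a7 a8 a9 a10) 3 = a1 := rfl
@[simp] theorem gt4 : gt (c' :: e :: y :: dl a1 a2 a3 a4 a5 a6 a7 a8 a9 a10) 4 = a2 := rfl
@[simp] theorem gt5 : gt (c' :: e :: y :: dl a1 a2 a3 a4 a5 a6 a7 a8 a9 a10) 5 = a3 := rfl
@[simp] theorem gt6 : gt (c' :: e :: y :: dl a1 a2 a3 a4 a5 a6 a7 a8 a9 a10) 6 = a4 := rfl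
@[simp] theorem gt7 : gt (c' :: e :: y :: dl a1 a2 a3 a4 a5 a6 a7 a8 a9 a10) 7 = a5 := rfl
@[simp] theorem gt8 : gt (c' :: e :: y :: dl a1 a2 a3 a4 a5 a6 a7 a8 a9 a10) 8 = a6 := rfl
@[simp] theorem gt9 : gt (c' :: e :: y :: dl a1 a2 a3 a4 a5 a6 a7 a8 a9 a10) 9 = a7 := rfl
@[simp] theorem gt10 : gt (c' :: e :: y :: dl a1 a2 a3 a4 a5 a6 a7 a8 a9 a10) 10 = a8 := rfl
@[simp] theorem gt11 : gt (c' :: e :: y :: dl a1 a2 a3 a4 a5 a6 a7 a8 a9 a10) 11 = a9 := rfl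
@[simp] theorem gt12 : gt (c' :: e :: y :: dl a1 a2 a3 a4 a5 a6 a7 a8 a9 a10) 12 = a10 := rfl

theorem tv_common : common.tv l (c' :: e :: y :: dl a1 a2 a3 a4 a5 a6 a7 a8 a9 a10) ↔
    a5 < Pn (qn l) (qm l) ∧ a6 + a7 ≤ qm l + 3 ∧ a8 < Pn (qn l) (qm l) ∧ a9 ≤ qm l + 3 ∧
      a10 < 3 := by
  simp [common]

theorem tv_segc (u v : Ex) : (segc u v).tv l (c' :: e :: y :: dl a1 a2 a3 a4 a5 a6 a7 a8 a9 a10) ↔
    (u.val l (c' :: e :: y :: dl a1 a2 a3 a4 a5 a6 a7 a8 a9 a10) = a5 ∧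
      a6 + 1 ≤ v.val l (c' :: e :: y :: dl a1 a2 a3 a4 a5 a6 a7 a8 a9 a10) ∧
      v.val l (c' :: e :: y :: dl a1 a2 a3 a4 a5 a6 a7 a8 a9 a10) < a6 + 1 + a7) ∨
    (u.val l (c' :: e :: y :: dl a1 a2 a3 a4 a5 a6 a7 a8 a9 a10) = a8 ∧
      1 ≤ v.val l (c' :: e :: y :: dl a1 a2 a3 a4 a5 a6 a7 a8 a9 a10) ∧
      v.val l (c' :: e :: y :: dl a1 a2 a3 a4 a5 a6 a7 a8 a9 a10) < 1 + a9) := by
  simp [segc]

theorem tv_vz : vz.tv l (c' :: e :: y :: dl a1 a2 a3 a4 a5 a6 a7 a8 a9 a10) ↔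
    a2 < Pn (qn l) (qm l) ∧ 1 ≤ a4 ∧ a4 < qm l + 3 + 1 ∧
    ((a2 = a5 ∧ a6 + 1 ≤ a4 ∧ a4 < a6 + 1 + a7) ∨ (a2 = a8 ∧ 1 ≤ a4 ∧ a4 < 1 + a9)) := by
  simp only [vz, tv_and, tv_lt, tv_le, tv_segc, var_val, eP_val, con_val, add_val, eL_val, gt4,
    gt6]

theorem tv_CC (κ : ℕ) : (CC κ).tv l (c' :: e :: y :: dl a1 a2 a3 a4 a5 a6 a7 a8 a9 a10) ↔
    (VV κ).tv l (c' :: e :: y :: dl a1 a2 a3 a4 a5 a6 a7 a8 a9 a10) ∧
    ((e = 0 ∧ (XX κ).tv l (c' :: e :: y :: dl a1 a2 a3 a4 a5 a6 a7 a8 a9 a10)) ∨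
      ((y = a5 ∧ a6 + 1 ≤ e ∧ e < a6 + 1 + a7) ∨ (y = a8 ∧ 1 ≤ e ∧ e < 1 + a9))) ∧
    ¬ (y = (zp κ).val l (c' :: e :: y :: dl a1 a2 a3 a4 a5 a6 a7 a8 a9 a10) ∧
      e = (zz κ).val l (c' :: e :: y :: dl a1 a2 a3 a4 a5 a6 a7 a8 a9 a10) ∧ c' = a10) := by
  simp only [CC, tv_and, tv_or, tv_not, tv_eq, tv_segc, var_val, con_val, gt0, gt1, gt2, gt12]

end

theorem tv_xp (k : Kd) (env : List ℕ) : (xp k).tv l env ↔
    (∃ e ∈ k.ys, gt env 2 = e.val l env) ∨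
      ∃ q ∈ k.tk, 3 * qn l + qm l + q.val l env * qm l ≤ gt env 2 ∧
        gt env 2 < 3 * qn l + qm l + q.val l env * qm l + qm l := by
  rcases k with ⟨va, pt, ys, tk, sz⟩
  rcases tk with _ | q
  · simp [xp]
  · simp [xp]

section

variable {P : Type} [DecidableEq P] {L : ℕ}

theorem mem_seg (i : P) (c a : ℕ) (x : P × Fin (L + 1)) :
    x ∈ seg L i c a ↔ x.1 = i ∧ c ≤ (x.2 : ℕ) ∧ (x.2 : ℕ) < c + a := by
  unfold seg
  rw [Finset.mem_map]
  constructor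
  · rintro ⟨e, he, rfl⟩
    rw [Finset.mem_filter] at he
    exact ⟨rfl, he.2⟩
  · rintro ⟨h1, h2⟩
    refine ⟨x.2, ?_, ?_⟩
    · rw [Finset.mem_filter]
      exact ⟨Finset.mem_univ _, h2⟩
    · ext
      · exact h1.symm
      · rfl

theorem mem_big (X : Finset P) (i₀ : P) (c₀ a : ℕ) (i₁ : P) (b : ℕ) (y : P) (e : Fin (L + 1)) :
    (y, e) ∈ big L X i₀ c₀ a i₁ b ↔ ((e : ℕ) = 0 ∧ y ∈ X) ∨
      ((y = i₀ ∧ c₀ + 1 ≤ (e : ℕ) ∧ (e : ℕ) < c₀ + 1 + a) ∨
        (y = i₁ ∧ 1 ≤ (e : ℕ) ∧ (e : ℕ) < 1 + b)) := by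
  unfold big
  rw [Finset.mem_union, Finset.mem_union, mem_seg, mem_seg, or_assoc]
  refine or_congr ?_ Iff.rfl
  rw [Finset.mem_map]
  constructor
  · rintro ⟨p, hp, h⟩
    have h' : (p, (0 : Fin (L + 1))) = (y, e) := h
    rw [Prod.mk.injEq] at h'
    obtain ⟨rfl, rfl⟩ := h'
    exact ⟨rfl, hp⟩
  · rintro ⟨h1, h2⟩
    refine ⟨y, h2, ?_⟩
    have : e = 0 := Fin.ext h1
    rw [this]
    rfl

theorem mem_pr {Q : Type} (s : ℕ) (p : Q) (Y : Finset Q) (c : Fin 3) (x : Q) (c' : Fin 3) :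
    (Sum.inl (x, c') : Q × Fin 3 ⊕ Fin s) ∈ pr s p Y c ↔ x ∈ Y ∧ ¬ (x = p ∧ c' = c) := by
  unfold pr
  rw [Set.mem_setOf_eq]
  constructor
  · rintro ⟨x', c'', h, h1, h2⟩
    rw [Sum.inl.injEq, Prod.mk.injEq] at h
    obtain ⟨rfl, rfl⟩ := h
    exact ⟨h1, h2⟩
  · rintro ⟨h1, h2⟩
    exact ⟨x, c', rfl, h1, h2⟩

theorem pr_inr {Q : Type} (s : ℕ) (p : Q) (Y : Finset Q) (c : Fin 3) (z : Fin s) :
    (Sum.inr z : Q × Fin 3 ⊕ Fin s) ∉ pr s p Y c := by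
  unfold pr
  rw [Set.mem_setOf_eq]
  rintro ⟨x', c'', h, -⟩
  simp at h

end

/-- the statement that the digits describe the answer `(p, Y, c)` -/
def Match (l : List ℕ) (κ : ℕ) (ds : List ℕ)
    (p : Pt (qn l) (qm l) × Fin (qm l + 3 + 1))
    (Y : Finset (Pt (qn l) (qm l) × Fin (qm l + 3 + 1))) (c : Fin 3) : Prop :=
  ∀ (p' : Pt (qn l) (qm l)) (e' : Fin (qm l + 3 + 1)) (c' : Fin 3),
    (CC κ).tv l (c' :: e' :: pnum p' :: ds) ↔ (p', e') ∈ Y ∧ ¬ ((p', e') = p ∧ c' = c)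

/-- the main computation -/
theorem match_of {κ : ℕ} (a1 a2 a3 a4 a6 a7 a9 : ℕ) (X : Finset (Pt (qn l) (qm l)))
    (I0 I1 : Pt (qn l) (qm l)) (z : Pt (qn l) (qm l) × Fin (qm l + 3 + 1)) (c : Fin 3)
    (hV : ∀ c' e y, (VV κ).tv l (c' :: e :: y ::
      dl a1 a2 a3 a4 (pnum I0) a6 a7 (pnum I1) a9 c))
    (hX : ∀ (c' e : ℕ) (y : Pt (qn l) (qm l)), (XX κ).tv l (c' :: e :: pnum y ::
      dl a1 a2 a3 a4 (pnum I0) a6 a7 (pnum I1) a9 c) ↔ y ∈ X)
    (hz : ∀ c' e y, (zp κ).val l (c' :: e :: y ::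
      dl a1 a2 a3 a4 (pnum I0) a6 a7 (pnum I1) a9 c) = pnum z.1)
    (hz' : ∀ c' e y, (zz κ).val l (c' :: e :: y ::
      dl a1 a2 a3 a4 (pnum I0) a6 a7 (pnum I1) a9 c) = z.2) :
    Match l κ (dl a1 a2 a3 a4 (pnum I0) a6 a7 (pnum I1) a9 c) z
      (big (qm l + 3) X I0 a6 a7 I1 a9) c := by
  intro p' e' c'
  rw [tv_CC, mem_big, hX, hz, hz']
  have h1 : (p', e') = z ↔ pnum p' = pnum z.1 ∧ (e' : ℕ) = z.2 := by
    rw [Prod.ext_iff, eq_iff_pnum, Fin.ext_iff]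
  have h2 : c' = c ↔ (c' : ℕ) = c := Fin.ext_iff
  rw [h1, h2, eq_iff_pnum, eq_iff_pnum, and_assoc]
  have := hV c' e' (pnum p')
  tauto

theorem sound {κ : ℕ} (hκ : κ < 17) (a1 a2 a3 a4 a5 a6 a7 a8 a9 a10 : ℕ) :
    (∀ c' e y, ¬ (CC κ).tv l (c' :: e :: y :: dl a1 a2 a3 a4 a5 a6 a7 a8 a9 a10)) ∨
    ∃ p Y c, Pad (qm l + 3) (Pt.Ans (qU l) (qc l)) p Y ∧ p ∈ Y ∧
      Match l κ (dl a1 a2 a3 a4 a5 a6 a7 a8 a9 a10) p Y c := by
  by_cases hex : ∃ c' e y, (CC κ).tv l (c' :: e :: y :: dl a1 a2 a3 a4 a5 a6 a7 a8 a9 a10)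
  swap
  · left
    intro c' e y h
    exact hex ⟨c', e, y, h⟩
  right
  obtain ⟨c', e, y, hC⟩ := hex
  rw [tv_CC] at hC
  have hV := hC.1
  clear hC
  by_cases h15 : κ < 15
  · have hVV : VV κ = (kd κ).va.and (common.and (Cd.eq (.add (.add (kd κ).sz (.var 9)) (.var 11))
      (.add eL (.con 1)))) := by rw [VV, if_pos h15]
    rw [hVV, tv_and, tv_and, tv_common, tv_eq] at hV
    obtain ⟨hva, ⟨h5, h67, h8, h9, h10⟩, hs⟩ := hV
    obtain ⟨p, X, hA, hpX, hD⟩ := kd_sound h15 _ hva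
    obtain ⟨I0, rfl⟩ := exists_pt h5
    obtain ⟨I1, rfl⟩ := exists_pt h8
    have hD' : ∀ c' e y, Desc l (c' :: e :: y :: dl a1 a2 a3 a4 (pnum I0) a6 a7 (pnum I1) a9 a10)
        (kd κ) p X := fun c' e y => hD _ rfl rfl rfl
    have hcard : X.card + a7 + a9 = qm l + 3 + 1 := by
      rw [(hD' c' e y).2.2.1]
      simpa using hs
    refine ⟨(p, 0), big (qm l + 3) X I0 a6 a7 I1 a9, ⟨a10, h10⟩,
      Pad.real p X I0 a6 a7 I1 a9 hA hpX h67 h9 hcard, ?_, ?_⟩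
    · rw [mem_big]
      exact Or.inl ⟨rfl, hpX⟩
    · refine match_of a1 a2 a3 a4 a6 a7 a9 X I0 I1 (p, 0) ⟨a10, h10⟩ ?_ ?_ ?_ ?_
      · intro c' e y
        rw [hVV, tv_and, tv_and, tv_common, tv_eq]
        refine ⟨(hD' c' e y).1, ⟨h5, h67, h8, h9, h10⟩, ?_⟩
        have := (hD' c' e y).2.2.1
        simp only [add_val, var_val, eL_val, con_val, gt9, gt11]
        rw [← this]
        exact hcard
      · intro c' e y
        rw [XX, if_pos h15, tv_xp]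
        exact ((hD' c' e (pnum y)).2.2.2 y).symm
      · intro c' e y
        rw [zp, if_pos h15]
        exact (hD' c' e y).2.1.symm
      · intro c' e y
        rw [zz, if_pos h15]
        rfl
  · by_cases h15' : κ = 15
    · subst h15'
      have hVV : VV 15 = (Cd.lt (.var 3) eP).and (vz.and (common.and
        (Cd.eq (.add (.var 9) (.var 11)) eL))) := rfl
      rw [hVV, tv_and, tv_and, tv_and, tv_common, tv_eq, tv_vz] at hV
      obtain ⟨h1, ⟨h2, h4, h4', hsg⟩, ⟨h5, h67, h8, h9, h10⟩, hs⟩ := hV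
      have h1' : a1 < Pn (qn l) (qm l) := by simpa using h1
      have hs' : a7 + a9 = qm l + 3 := by simpa using hs
      obtain ⟨I0, rfl⟩ := exists_pt h5
      obtain ⟨I1, rfl⟩ := exists_pt h8
      obtain ⟨p, rfl⟩ := exists_pt h1'
      obtain ⟨z, rfl⟩ := exists_pt h2
      have hm : (z, (⟨a4, h4'⟩ : Fin (qm l + 3 + 1))) ∈ big (qm l + 3) {p} I0 a6 a7 I1 a9 := by
        rw [mem_big, eq_iff_pnum z I0, eq_iff_pnum z I1]
        exact Or.inr hsg
      refine ⟨(z, ⟨a4, h4'⟩), big (qm l + 3) {p} I0 a6 a7 I1 a9, ⟨a10, h10⟩,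
        Pad.one _ ?_ p I0 a6 a7 I1 a9 h67 h9 hs' hm, hm, ?_⟩
      · intro h
        have := congrArg Fin.val h
        simp at this
        omega
      · refine match_of (pnum p) (pnum z) a3 a4 a6 a7 a9 {p} I0 I1 (z, ⟨a4, h4'⟩) ⟨a10, h10⟩
          ?_ ?_ ?_ ?_
        · intro c' e y
          rw [hVV, tv_and, tv_and, tv_and, tv_common, tv_eq, tv_vz]
          refine ⟨by simpa using h1', ⟨h2, h4, h4', hsg⟩, ⟨h5, h67, h8, h9, h10⟩, by simpa using hs'⟩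
        · intro c' e y
          have : XX 15 = Cd.eq (.var 2) (.var 3) := rfl
          rw [this, tv_eq, Finset.mem_singleton, eq_iff_pnum]
          simp
        · intro c' e y
          rfl
        · intro c' e y
          rfl
    · have h16 : κ = 16 := by omega
      subst h16
      have hVV : VV 16 = vz.and (common.and
        (Cd.eq (.add (.var 9) (.var 11)) (.add eL (.con 1)))) := rfl
      rw [hVV, tv_and, tv_and, tv_common, tv_eq, tv_vz] at hV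
      obtain ⟨⟨h2, h4, h4', hsg⟩, ⟨h5, h67, h8, h9, h10⟩, hs⟩ := hV
      have hs' : a7 + a9 = qm l + 3 + 1 := by simpa using hs
      obtain ⟨I0, rfl⟩ := exists_pt h5
      obtain ⟨I1, rfl⟩ := exists_pt h8
      obtain ⟨z, rfl⟩ := exists_pt h2
      have hm : (z, (⟨a4, h4'⟩ : Fin (qm l + 3 + 1))) ∈ big (qm l + 3) ∅ I0 a6 a7 I1 a9 := by
        rw [mem_big, eq_iff_pnum z I0, eq_iff_pnum z I1]
        exact Or.inr hsg
      refine ⟨(z, ⟨a4, h4'⟩), big (qm l + 3) ∅ I0 a6 a7 I1 a9, ⟨a10, h10⟩,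
        Pad.none _ ?_ I0 a6 a7 I1 a9 h67 h9 hs' hm, hm, ?_⟩
      · intro h
        have := congrArg Fin.val h
        simp at this
        omega
      · refine match_of a1 (pnum z) a3 a4 a6 a7 a9 ∅ I0 I1 (z, ⟨a4, h4'⟩) ⟨a10, h10⟩
          ?_ ?_ ?_ ?_
        · intro c' e y
          rw [hVV, tv_and, tv_and, tv_common, tv_eq, tv_vz]
          refine ⟨⟨h2, h4, h4', hsg⟩, ⟨h5, h67, h8, h9, h10⟩, by simpa using hs'⟩
        · intro c' e y
          have : XX 16 = .ff := rfl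
          rw [this]
          simp
        · intro c' e y
          rfl
        · intro c' e y
          rfl

theorem complete {z : Pt (qn l) (qm l) × Fin (qm l + 3 + 1)}
    {Y : Finset (Pt (qn l) (qm l) × Fin (qm l + 3 + 1))} (c : Fin 3)
    (h : Pad (qm l + 3) (Pt.Ans (qU l) (qc l)) z Y) :
    ∃ κ < 17, ∃ a1 a2 a3 a4 a5 a6 a7 a8 a9 a10 : ℕ,
      (∀ d ∈ dl a1 a2 a3 a4 a5 a6 a7 a8 a9 a10, d < Pn (qn l) (qm l) + qm l + 20) ∧
      Match l κ (dl a1 a2 a3 a4 a5 a6 a7 a8 a9 a10) z Y c := by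
  have hc3 := c.2
  have hPn : 3 * qn l + qm l ≤ Pn (qn l) (qm l) := by unfold Pn; omega
  cases h with
  | real p X i₀ c₀ a i₁ b hR hX hc hb h =>
    obtain ⟨κ, hκ, y1, y2, y3, b1, b2, b3, hD⟩ := kd_complete hR
    have l0 := pnum_lt i₀
    have l1 := pnum_lt i₁
    refine ⟨κ, by omega, y1, y2, y3, 0, pnum i₀, c₀, a, pnum i₁, b, c, ?_, ?_⟩
    · intro d hd
      simp only [dl, List.mem_cons, List.not_mem_nil, or_false] at hd
      rcases hd with rfl | rfl | rfl | rfl | rfl | rfl | rfl | rfl | rfl | rfl <;> omega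
    · have hD' : ∀ c' e y, Desc l (c' :: e :: y :: dl y1 y2 y3 0 (pnum i₀) c₀ a (pnum i₁) b c)
          (kd κ) p X := fun c' e y => hD _ rfl rfl rfl
      have hVV : VV κ = (kd κ).va.and (common.and (Cd.eq (.add (.add (kd κ).sz (.var 9)) (.var 11))
        (.add eL (.con 1)))) := by rw [VV, if_pos hκ]
      refine match_of y1 y2 y3 0 c₀ a b X i₀ i₁ (p, 0) c ?_ ?_ ?_ ?_
      · intro c' e y
        rw [hVV, tv_and, tv_and, tv_common, tv_eq]
        refine ⟨(hD' c' e y).1, ⟨l0, hc, l1, hb, hc3⟩, ?_⟩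
        have := (hD' c' e y).2.2.1
        simp only [add_val, var_val, eL_val, con_val, gt9, gt11]
        rw [← this]
        exact h
      · intro c' e y
        rw [XX, if_pos hκ, tv_xp]
        exact ((hD' c' e (pnum y)).2.2.2 y).symm
      · intro c' e y
        rw [zp, if_pos hκ]
        exact (hD' c' e y).2.1.symm
      · intro c' e y
        rw [zz, if_pos hκ]
        rfl
  | one _ hz p i₀ c₀ a i₁ b hc hb h hm =>
    have l0 := pnum_lt i₀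
    have l1 := pnum_lt i₁
    have l2 := pnum_lt p
    have l3 := pnum_lt z.1
    have l4 := z.2.2
    have l5 : 1 ≤ (z.2 : ℕ) := by
      rw [Nat.one_le_iff_ne_zero]
      intro h0
      exact hz (Fin.ext h0)
    refine ⟨15, by omega, pnum p, pnum z.1, 0, z.2, pnum i₀, c₀, a, pnum i₁, b, c, ?_, ?_⟩
    · intro d hd
      simp only [dl, List.mem_cons, List.not_mem_nil, or_false] at hd
      rcases hd with rfl | rfl | rfl | rfl | rfl | rfl | rfl | rfl | rfl | rfl <;> omega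
    · refine match_of (pnum p) (pnum z.1) 0 z.2 c₀ a b {p} i₀ i₁ z c ?_ ?_ ?_ ?_
      · intro c' e y
        have hVV : VV 15 = (Cd.lt (.var 3) eP).and (vz.and (common.and
          (Cd.eq (.add (.var 9) (.var 11)) eL))) := rfl
        rw [hVV, tv_and, tv_and, tv_and, tv_common, tv_eq, tv_vz]
        refine ⟨by simpa using l2, ⟨l3, l5, l4, ?_⟩, ⟨l0, hc, l1, hb, hc3⟩, by simpa using h⟩
        have hm' : (z.1, z.2) ∈ big (qm l + 3) {p} i₀ c₀ a i₁ b := hm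
        rw [mem_big, eq_iff_pnum z.1 i₀, eq_iff_pnum z.1 i₁] at hm'
        rcases hm' with hm' | hm'
        · omega
        · exact hm'
      · intro c' e y
        have : XX 15 = Cd.eq (.var 2) (.var 3) := rfl
        rw [this, tv_eq, Finset.mem_singleton, eq_iff_pnum]
        simp
      · intro c' e y
        rfl
      · intro c' e y
        rfl
  | none _ hz i₀ c₀ a i₁ b hc hb h hm =>
    have l0 := pnum_lt i₀
    have l1 := pnum_lt i₁
    have l3 := pnum_lt z.1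
    have l4 := z.2.2
    have l5 : 1 ≤ (z.2 : ℕ) := by
      rw [Nat.one_le_iff_ne_zero]
      intro h0
      exact hz (Fin.ext h0)
    refine ⟨16, by omega, 0, pnum z.1, 0, z.2, pnum i₀, c₀, a, pnum i₁, b, c, ?_, ?_⟩
    · intro d hd
      simp only [dl, List.mem_cons, List.not_mem_nil, or_false] at hd
      rcases hd with rfl | rfl | rfl | rfl | rfl | rfl | rfl | rfl | rfl | rfl <;> omega
    · refine match_of 0 (pnum z.1) 0 z.2 c₀ a b ∅ i₀ i₁ z c ?_ ?_ ?_ ?_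
      · intro c' e y
        have hVV : VV 16 = vz.and (common.and
          (Cd.eq (.add (.var 9) (.var 11)) (.add eL (.con 1)))) := rfl
        rw [hVV, tv_and, tv_and, tv_common, tv_eq, tv_vz]
        refine ⟨⟨l3, l5, l4, ?_⟩, ⟨l0, hc, l1, hb, hc3⟩, by simpa using h⟩
        have hm' : (z.1, z.2) ∈ big (qm l + 3) ∅ i₀ c₀ a i₁ b := hm
        rw [mem_big, eq_iff_pnum z.1 i₀, eq_iff_pnum z.1 i₁] at hm'
        rcases hm' with hm' | hm'
        · omega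
        · exact hm'
      · intro c' e y
        have : XX 16 = .ff := rfl
        rw [this]
        simp
      · intro c' e y
        rfl
      · intro c' e y
        rfl

end

end Pool.Agent.H15.Dom
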