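import Pool.Agent.H15.Dom.E3

/-! The generator of the split graph (module E of MP_0061eb_lc, part 4). -/

set_option autoImplicit false

namespace Pool.Agent.H15.Dom

open Pool.Agent.H1.Dom Pool.Agent.H68.OQP Pool.Agent.H68.NPH Finset

/-- bound for the digits -/
def eS : Ex := .add (.add eP eM) (.con 20)
/-- number of positions of a cell -/
def eC : Ex := .add eM (.con 4)

/-- powers -/
def pw (e : Ex) : ℕ → Ex
  | 0 => .con 1
  | r + 1 => .mul e (pw e r)

theorem pw_val {l env : List ℕ} (e : Ex) : ∀ r, (pw e r).val l env = e.val l env ^ r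
  | 0 => rfl
  | r + 1 => by rw [pw, mul_val, pw_val e r, pow_succ, mul_comm]

/-- number of the clique vertices -/
def eN1 : Ex := .add (.con 1) (.mul (.con 17) (pw eS 10))
/-- number of the vertices `(x, c)` -/
def eB : Ex := .mul (.mul eP eC) (.con 3)
/-- number of the extra vertices -/
def eZ : Ex := .add (cm 3 eM) (.con 11)
/-- number of the vertices -/
def eNN : Ex := .add eN1 (.add eB eZ)

/-- the digits -/
def digs : List Ex :=
  [.var 3, .var 4, .var 5, .var 6, .var 7, .var 8, .var 9, .var 10, .var 11, .var 12]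

/-- the edges at the clique vertices of the kind `κ` -/
def gk (κ : ℕ) : Rg :=
  loops eS 10 (.loop eP (.loop eC (.loop (.con 3) (.cond (CC κ)
    (.pair (.add (.con 1) (.add (.con κ) (cm 17 (hor eS digs))))
      (.add eN1 (.add (.mul (.add (.mul (.var 2) eC) (.var 1)) (.con 3)) (.var 0))))))))

/-- the edges -/
def gg : Rg :=
  .seq (.loop eN1 (.loop eN1 (.pair (.var 1) (.var 0))))
    (.seq (.loop eZ (.pair (.con 0) (.add eN1 (.add eB (.var 0)))))
      (Rg.many (List.range 17) gk))

section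

variable (l : List ℕ)

/-- bound for the digits -/
def SS : ℕ := Pn (qn l) (qm l) + qm l + 20

/-- number of clique vertices -/
def N1 : ℕ := 1 + 17 * SS l ^ 10

/-- number of vertices `(x, c)` -/
def BB : ℕ := Pn (qn l) (qm l) * (qm l + 4) * 3

/-- points of the padded game -/
abbrev QQ : Type := Pt (qn l) (qm l) × Fin (qm l + 3 + 1)

/-- independent vertices -/
abbrev II : Type := QQ l × Fin 3 ⊕ Fin (3 * (qm l + 3 + 1) - 1)

/-- clique vertices -/
abbrev KK : Type := Option (Fin 17 × (Fin 10 → Fin (SS l)))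

/-- digits as a list -/
def lst {r s : ℕ} (d : Fin r → Fin s) : List ℕ := List.ofFn (fun i => (d i : ℕ))

variable {l}

theorem eS_val {env : List ℕ} : eS.val l env = SS l := rfl
theorem eC_val {env : List ℕ} : eC.val l env = qm l + 4 := rfl
theorem eN1_val {env : List ℕ} : eN1.val l env = N1 l := by
  simp only [eN1, add_val, con_val, mul_val, pw_val, eS_val, N1]
theorem eB_val {env : List ℕ} : eB.val l env = BB l := rfl
theorem eZ_val {env : List ℕ} : eZ.val l env = 3 * qm l + 11 := rfl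

theorem lst_length {r s : ℕ} (d : Fin r → Fin s) : (lst d).length = r := by simp [lst]

theorem lst_lt {r s : ℕ} (d : Fin r → Fin s) : ∀ x ∈ lst d, x < s := by
  intro x hx
  unfold lst at hx
  rw [List.mem_ofFn] at hx
  obtain ⟨i, rfl⟩ := hx
  exact (d i).2

theorem lst_inj {r s : ℕ} {d d' : Fin r → Fin s} (h : lst d = lst d') : d = d' := by
  have := List.ofFn_injective h
  funext i
  exact Fin.ext (congrFun this i)

theorem exists_lst {r s : ℕ} (ds : List ℕ) (h : ds.length = r) (h2 : ∀ x ∈ ds, x < s) :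
    ∃ d : Fin r → Fin s, lst d = ds := by
  subst h
  refine ⟨fun i => ⟨ds[(i : ℕ)], h2 _ (List.getElem_mem _)⟩, ?_⟩
  exact List.ofFn_getElem

theorem lst_dl {s : ℕ} (d : Fin 10 → Fin s) :
    lst d = dl (d 0) (d 1) (d 2) (d 3) (d 4) (d 5) (d 6) (d 7) (d 8) (d 9) := rfl

/-- the neighbourhoods -/
def FF : KK l → Set (II l)
  | none => zs _
  | some (κ, d) => {i | ∃ p e c', i = Sum.inl ((p, e), c') ∧
      (CC κ).tv l (((c' : Fin 3) : ℕ) :: ((e : Fin (qm l + 3 + 1)) : ℕ) :: pnum p :: lst d)}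

/-- the number of a clique vertex -/
def numK : KK l → ℕ
  | none => 0
  | some (κ, d) => 1 + (κ + 17 * Nat.ofDigits (SS l) (lst d))

/-- the number of an independent vertex -/
def numI : II l → ℕ
  | .inl ((p, e), c) => (pnum p * (qm l + 4) + e) * 3 + c
  | .inr z => BB l + z

/-- the number of a vertex -/
def num : KK l ⊕ II l → ℕ
  | .inl k => numK k
  | .inr i => N1 l + numI i

theorem one_lt_SS : 1 < SS l := by unfold SS; omega

theorem numK_lt (k : KK l) : numK k < N1 l := by
  unfold N1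
  rcases k with _ | ⟨κ, d⟩
  · simp only [numK]; omega
  · simp only [numK]
    have h := Nat.ofDigits_lt_base_pow_length (l := lst d) (one_lt_SS (l := l)) (lst_lt d)
    rw [lst_length] at h
    have := κ.2
    omega

theorem numK_inj : Function.Injective (numK : KK l → ℕ) := by
  intro k k' h
  rcases k with _ | ⟨κ, d⟩ <;> rcases k' with _ | ⟨κ', d'⟩ <;> simp only [numK] at h
  · rfl
  · omega
  · omega
  · have h1 := κ.2
    have h2 := κ'.2
    have h3 : (κ : ℕ) = κ' := by omega
    have h4 : Nat.ofDigits (SS l) (lst d) = Nat.ofDigits (SS l) (lst d') := by omega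
    have h5 := Nat.ofDigits_inj_of_len_eq one_lt_SS (by rw [lst_length, lst_length])
      (lst_lt d) (lst_lt d') h4
    rw [lst_inj h5, Fin.ext h3]

theorem numI_lt (i : II l) : numI i < BB l + (3 * qm l + 11) := by
  rcases i with ⟨⟨p, e⟩, c⟩ | z
  · simp only [numI]
    have h1 : pnum p * (qm l + 4) + e < Pn (qn l) (qm l) * (qm l + 4) :=
      radix_lt e.2 (pnum_lt p)
    have h2 : (pnum p * (qm l + 4) + e) * 3 + c < Pn (qn l) (qm l) * (qm l + 4) * 3 :=
      radix_lt c.2 h1
    unfold BB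
    omega
  · simp only [numI]
    have := z.2
    omega

theorem numI_inl_lt (x : QQ l) (c : Fin 3) : numI (.inl (x, c) : II l) < BB l := by
  rcases x with ⟨p, e⟩
  simp only [numI]
  have h1 : pnum p * (qm l + 4) + e < Pn (qn l) (qm l) * (qm l + 4) :=
    radix_lt e.2 (pnum_lt p)
  exact radix_lt c.2 h1

theorem numI_inj : Function.Injective (numI : II l → ℕ) := by
  intro i i' h
  rcases i with ⟨⟨p, e⟩, c⟩ | z
  · rcases i' with ⟨⟨p', e'⟩, c'⟩ | z'
    · simp only [numI] at h
      obtain ⟨h1, h2⟩ := radix_inj c.2 c'.2 h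
      obtain ⟨h3, h4⟩ := radix_inj (m := qm l + 4) e.2 e'.2 h1
      rw [pnum_inj h3, Fin.ext h4, Fin.ext h2]
    · have := numI_inl_lt (p, e) c
      rw [h] at this
      simp only [numI] at this
      omega
  · rcases i' with ⟨⟨p', e'⟩, c'⟩ | z'
    · have := numI_inl_lt (p', e') c'
      rw [← h] at this
      simp only [numI] at this
      omega
    · simp only [numI] at h
      rw [Fin.ext (show (z : ℕ) = z' by omega)]

theorem num_lt (a : KK l ⊕ II l) : num a < eNN.val l [] := by
  have : eNN.val l [] = N1 l + (BB l + (3 * qm l + 11)) := by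
    simp only [eNN, add_val, eN1_val, eB_val, eZ_val]
  rw [this]
  rcases a with k | i
  · have := numK_lt k
    simp only [num]
    omega
  · have := numI_lt i
    simp only [num]
    omega

theorem num_inj : Function.Injective (num : KK l ⊕ II l → ℕ) := by
  intro a b h
  rcases a with k | i <;> rcases b with k' | i' <;> simp only [num] at h
  · rw [numK_inj h]
  · have := numK_lt k; omega
  · have := numK_lt k'; omega
  · rw [numI_inj (show numI i = numI i' by omega)]

theorem card_all : Fintype.card (KK l ⊕ II l) = eNN.val l [] := by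
  have : eNN.val l [] = N1 l + (BB l + (3 * qm l + 11)) := by
    simp only [eNN, add_val, eN1_val, eB_val, eZ_val]
  rw [this]
  simp only [Fintype.card_sum, Fintype.card_option, Fintype.card_prod, Fintype.card_fin,
    Fintype.card_fun, card_pt, N1, BB]
  have e1 : Pn (qn l) (qm l) * (qm l + 3 + 1) = Pn (qn l) (qm l) * (qm l + 4) := rfl
  omega

/-- the numbering -/
noncomputable def enum (l : List ℕ) : (KK l ⊕ II l) ≃ Fin (eNN.val l []) :=
  Equiv.ofBijective (fun a => ⟨num a, num_lt a⟩) (by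
    rw [Fintype.bijective_iff_injective_and_card]
    refine ⟨fun a b h => num_inj (Fin.mk.inj_iff.mp h), ?_⟩
    rw [card_all, Fintype.card_fin])

theorem enum_val (a : KK l ⊕ II l) : ((enum l a : Fin _) : ℕ) = num a := rfl

/-- the edges of a kind -/
theorem mem_gk (κ : ℕ) (u v : ℕ) : (u, v) ∈ (gk κ).out l [] ↔
    ∃ ds : List ℕ, ds.length = 10 ∧ (∀ d ∈ ds, d < SS l) ∧ ∃ y < Pn (qn l) (qm l),
      ∃ e < qm l + 4, ∃ c < 3, (CC κ).tv l (c :: e :: y :: ds) ∧
        u = 1 + (κ + 17 * Nat.ofDigits (SS l) ds) ∧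
        v = N1 l + ((y * (qm l + 4) + e) * 3 + c) := by
  unfold gk
  rw [mem_loops (fun env => eS_val)]
  simp only [List.append_nil]
  refine exists_congr fun ds => ?_
  constructor
  · rintro ⟨h1, h2, h3⟩
    refine ⟨h1, h2, ?_⟩
    rw [Rg.mem_loop] at h3
    obtain ⟨y, hy, h3⟩ := h3
    rw [Rg.mem_loop] at h3
    obtain ⟨e, he, h3⟩ := h3
    rw [Rg.mem_loop] at h3
    obtain ⟨c, hc, h3⟩ := h3
    rw [Rg.mem_cond, Rg.mem_pair, Prod.mk.injEq] at h3
    refine ⟨y, hy, e, he, c, hc, h3.1, ?_, ?_⟩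
    · rw [h3.2.1]
      obtain ⟨d, rfl⟩ := exists_lst ds h1 h2
      simp only [add_val, con_val, cm_val, hor_val, eS_val, lst_dl, digs, List.map_cons,
        List.map_nil, var_val, gt3, gt4, gt5, gt6, gt7, gt8, gt9, gt10, gt11, gt12]
      rfl
    · rw [h3.2.2]
      simp only [add_val, eN1_val, mul_val, var_val, eC_val, con_val]
      rfl
  · rintro ⟨h1, h2, y, hy, e, he, c, hc, h3, h4, h5⟩
    refine ⟨h1, h2, ?_⟩
    rw [Rg.mem_loop]
    refine ⟨y, hy, ?_⟩
    rw [Rg.mem_loop]
    refine ⟨e, he, ?_⟩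
    rw [Rg.mem_loop]
    refine ⟨c, hc, ?_⟩
    rw [Rg.mem_cond, Rg.mem_pair, Prod.mk.injEq]
    refine ⟨h3, ?_, ?_⟩
    · rw [h4]
      obtain ⟨d, rfl⟩ := exists_lst ds h1 h2
      simp only [add_val, con_val, cm_val, hor_val, eS_val, lst_dl, digs, List.map_cons,
        List.map_nil, var_val, gt3, gt4, gt5, gt6, gt7, gt8, gt9, gt10, gt11, gt12]
      rfl
    · rw [h5]
      simp only [add_val, eN1_val, mul_val, var_val, eC_val, con_val]
      rfl

theorem mem_gg (u v : ℕ) : (u, v) ∈ gg.out l [] ↔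
    (u < N1 l ∧ v < N1 l) ∨ (u = 0 ∧ ∃ z < 3 * qm l + 11, v = N1 l + (BB l + z)) ∨
      ∃ κ < 17, (u, v) ∈ (gk κ).out l [] := by
  unfold gg
  rw [Rg.mem_seq, Rg.mem_seq, Rg.mem_many]
  refine or_congr ?_ (or_congr ?_ ?_)
  · rw [Rg.mem_loop]
    constructor
    · rintro ⟨i, hi, h⟩
      rw [Rg.mem_loop] at h
      obtain ⟨j, hj, h⟩ := h
      rw [Rg.mem_pair, Prod.mk.injEq] at h
      rw [eN1_val] at hi hj
      obtain ⟨rfl, rfl⟩ := h
      exact ⟨hi, hj⟩
    · rintro ⟨h1, h2⟩
      refine ⟨u, by rwa [eN1_val], ?_⟩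
      rw [Rg.mem_loop]
      refine ⟨v, by rwa [eN1_val], ?_⟩
      rw [Rg.mem_pair]
      rfl
  · rw [Rg.mem_loop]
    constructor
    · rintro ⟨i, hi, h⟩
      rw [Rg.mem_pair, Prod.mk.injEq] at h
      rw [eZ_val] at hi
      refine ⟨h.1, i, hi, ?_⟩
      rw [h.2]
      simp only [add_val, eN1_val, eB_val, var_val]
      rfl
    · rintro ⟨h1, z, hz, h2⟩
      refine ⟨z, by rwa [eZ_val], ?_⟩
      rw [Rg.mem_pair, Prod.mk.injEq]
      refine ⟨h1, ?_⟩
      rw [h2]
      simp only [add_val, eN1_val, eB_val, var_val]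
      rfl
  · simp only [List.mem_range]

theorem mem_FF (κ : ℕ) (hκ : κ < 17) (k : KK l) (i : II l) :
    (numK k, N1 l + numI i) ∈ (gk κ).out l [] ↔
      ∃ d, k = some (⟨κ, hκ⟩, d) ∧ i ∈ FF k := by
  rw [mem_gk]
  constructor
  · rintro ⟨ds, h1, h2, y, hy, e, he, c, hc, h3, h4, h5⟩
    obtain ⟨d, rfl⟩ := exists_lst ds h1 h2
    obtain ⟨p, rfl⟩ := exists_pt hy
    have hk : k = some (⟨κ, hκ⟩, d) := numK_inj h4
    have hi : i = Sum.inl ((p, ⟨e, he⟩), ⟨c, hc⟩) := by
      apply numI_inj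
      have e1 : numI (Sum.inl ((p, ⟨e, he⟩), ⟨c, hc⟩) : II l) =
        (pnum p * (qm l + 4) + e) * 3 + c := rfl
      rw [e1]
      omega
    refine ⟨d, hk, ?_⟩
    rw [hk, hi]
    exact ⟨p, ⟨e, he⟩, ⟨c, hc⟩, rfl, h3⟩
  · rintro ⟨d, rfl, p, e, c', rfl, h⟩
    exact ⟨lst d, lst_length d, lst_lt d, pnum p, pnum_lt p, e, e.2, c', c'.2, h, rfl, rfl⟩

theorem mem_out_inr (k : KK l) (i : II l) :
    (numK k, N1 l + numI i) ∈ gg.out l [] ↔ i ∈ FF k := by
  rw [mem_gg]
  constructor
  · rintro (h | ⟨h1, z, hz, h2⟩ | ⟨κ, hκ, h⟩)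
    · omega
    · have hk : k = none := numK_inj h1
      have hz' : z < 3 * (qm l + 3 + 1) - 1 := by omega
      have hi : i = Sum.inr ⟨z, hz'⟩ := by
        apply numI_inj
        have e1 : numI (Sum.inr ⟨z, hz'⟩ : II l) = BB l + z := rfl
        rw [e1]
        omega
      rw [hk, hi]
      exact ⟨_, rfl⟩
    · rw [mem_FF κ hκ] at h
      obtain ⟨d, -, h⟩ := h
      exact h
  · intro h
    rcases k with _ | ⟨κ, d⟩
    · obtain ⟨z, rfl⟩ := h
      refine Or.inr (Or.inl ⟨rfl, z, ?_, rfl⟩)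
      have := z.2
      omega
    · refine Or.inr (Or.inr ⟨κ, κ.2, ?_⟩)
      rw [mem_FF κ κ.2]
      exact ⟨d, rfl, h⟩

theorem not_mem_out (u v : ℕ) : (N1 l + u, v) ∉ gg.out l [] := by
  rw [mem_gg]
  rintro (h | ⟨h1, -⟩ | ⟨κ, hκ, h⟩)
  · omega
  · unfold N1 at h1
    omega
  · rw [mem_gk] at h
    obtain ⟨ds, h1, h2, y, hy, e, he, c, hc, h3, h4, h5⟩ := h
    obtain ⟨d, rfl⟩ := exists_lst ds h1 h2
    have := numK_lt (some (⟨κ, hκ⟩, d) : KK l)
    simp only [numK] at this
    omega

/-- the good neighbourhoods -/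
theorem good : Good (Pad (qm l + 3) (Pt.Ans (qU l) (qc l))) (qm l + 3 + 1) (FF (l := l)) where
  zero := ⟨none, rfl⟩
  only := by
    rintro (_ | ⟨κ, d⟩)
    · exact Or.inr (Or.inl rfl)
    · rcases sound (l := l) κ.2 (d 0) (d 1) (d 2) (d 3) (d 4) (d 5) (d 6) (d 7) (d 8) (d 9) with
        h | ⟨p, Y, c, hP, hp, hM⟩
      · left
        ext i
        constructor
        · rintro ⟨p, e, c', rfl, h'⟩
          exact (h _ _ _ h').elim
        · intro h'
          exact h'.elim
      · right; right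
        refine ⟨p, Y, c, hP, hp, ?_⟩
        ext i
        rcases i with ⟨x, c'⟩ | z
        · rw [mem_pr]
          constructor
          · rintro ⟨p', e, c'', h1, h2⟩
            rw [Sum.inl.injEq, Prod.mk.injEq] at h1
            obtain ⟨rfl, rfl⟩ := h1
            exact (hM p' e c').mp h2
          · intro h
            refine ⟨x.1, x.2, c', rfl, ?_⟩
            exact (hM x.1 x.2 c').mpr h
        · constructor
          · rintro ⟨p', e, c'', h1, h2⟩
            simp at h1
          · intro h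
            exact (pr_inr _ _ _ _ _ h).elim
  all := by
    intro p Y c hP hp hY
    obtain ⟨κ, hκ, a1, a2, a3, a4, a5, a6, a7, a8, a9, a10, h1, hM⟩ := complete c hP
    obtain ⟨d, hd⟩ := exists_lst (r := 10) (s := SS l) (dl a1 a2 a3 a4 a5 a6 a7 a8 a9 a10) rfl h1
    refine ⟨some (⟨κ, hκ⟩, d), ?_⟩
    ext i
    rcases i with ⟨x, c'⟩ | z
    · rw [mem_pr]
      constructor
      · rintro ⟨p', e, c'', h1, h2⟩
        rw [Sum.inl.injEq, Prod.mk.injEq] at h1
        obtain ⟨rfl, rfl⟩ := h1
        rw [hd] at h2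
        exact (hM p' e c').mp h2
      · intro h
        refine ⟨x.1, x.2, c', rfl, ?_⟩
        rw [hd]
        exact (hM x.1 x.2 c').mpr h
    · constructor
      · rintro ⟨p', e, c'', h1, h2⟩
        simp at h1
      · intro h
        exact (pr_inr _ _ _ _ _ h).elim

end

/-- module E -/
theorem te : TE := by
  refine ⟨eNN, gg, fun l _ => ⟨KK l, inferInstance, FF, good, enum l, ?_⟩⟩
  have key : ∀ a b : KK l ⊕ II l, ((num a, num b) ∈ gg.out l [] ↔
      (match a, b with
        | .inl _, .inl _ => True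
        | .inl k, .inr i => i ∈ FF k
        | _, _ => False)) := by
    intro a b
    rcases a with k | i
    · rcases b with k' | i'
      · simp only [num, iff_true]
        rw [mem_gg]
        exact Or.inl ⟨numK_lt k, numK_lt k'⟩
      · exact mem_out_inr k i'
    · have : ∀ v, (num (Sum.inr i : KK l ⊕ II l), v) ∉ gg.out l [] := fun v => not_mem_out _ v
      rcases b with k' | i' <;> simp only [iff_false] <;> exact this _
  intro a b
  unfold splitG graphOf
  rw [SimpleGraph.fromRel_adj, SimpleGraph.fromRel_adj]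
  refine and_congr ?_ (or_congr ?_ ?_)
  · exact (enum l).injective.ne_iff.symm
  · rw [enum_val, enum_val]
    rcases a with k | i <;> rcases b with k' | i'
    · exact (key (.inl k) (.inl k')).symm
    · exact (key (.inl k) (.inr i')).symm
    · exact (key (.inr i) (.inl k')).symm
    · exact (key (.inr i) (.inr i')).symm
  · rw [enum_val, enum_val]
    rcases a with k | i <;> rcases b with k' | i'
    · exact (key (.inl k') (.inl k)).symm
    · exact (key (.inr i') (.inl k)).symm
    · exact (key (.inl k') (.inr i)).symm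
    · exact (key (.inr i') (.inr i)).symm

end Pool.Agent.H15.Dom
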